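import Mathlib

/-! Cycles through prescribed vertices as vertex sequences: surgery at a minimum weight cycle. -/

set_option autoImplicit false

namespace Pool.Agent.Lib.MP_fc2f01_lc

variable {V : Type*}

/-- the weight of a vertex sequence: the sum of the weights of its consecutive pairs -/
def pw (c : Sym2 V → ℕ) : List V → ℕ
  | [] => 0
  | [_] => 0
  | x :: y :: t => c s(x, y) + pw c (y :: t)

theorem pw_split (c : Sym2 V → ℕ) (U W : List V) (a : V) :
    pw c (U ++ a :: W) = pw c (U ++ [a]) + pw c (a :: W) := by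
  induction U with
  | nil => simp [pw]
  | cons x U ih =>
    cases U with
    | nil => simp [pw]
    | cons y U =>
      simp only [List.cons_append, pw] at ih ⊢
      omega

theorem pw_reverse (c : Sym2 V → ℕ) (l : List V) : pw c l.reverse = pw c l := by
  induction l with
  | nil => rfl
  | cons x t ih =>
    cases t with
    | nil => rfl
    | cons y t =>
      rw [List.reverse_cons] at ih ⊢
      rw [List.reverse_cons, List.append_assoc, List.singleton_append, pw_split, ih]
      simp only [pw, Sym2.eq_swap (a := y) (b := x)]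
      omega

theorem pw_ge (G : SimpleGraph V) (c : Sym2 V → ℕ) (m : ℕ) (hc : ∀ e ∈ G.edgeSet, m ≤ c e)
    (x : V) (l : List V) (h : (x :: l).IsChain G.Adj) : m * l.length ≤ pw c (x :: l) := by
  induction l generalizing x with
  | nil => simp
  | cons y t ih =>
    rw [List.isChain_cons_cons] at h
    have h1 := ih y h.2
    have h2 := hc s(x, y) h.1
    simp only [pw, List.length_cons]
    nlinarith

theorem pw_cons_split (c : Sym2 V → ℕ) (a d : V) (B W : List V) :
    pw c (a :: (B ++ d :: W)) = pw c (a :: (B ++ [d])) + pw c (d :: W) :=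
  pw_split c (a :: B) W d

theorem chain_cons_split {R : V → V → Prop} (a d : V) (B W : List V) :
    (a :: (B ++ d :: W)).IsChain R ↔ (a :: (B ++ [d])).IsChain R ∧ (d :: W).IsChain R :=
  List.isChain_split (l₁ := a :: B)

/-- the vertex sequence `x, t` is a cycle of `G` through all vertices of `S` -/
structure IsCyc (G : SimpleGraph V) (S : Finset V) (x : V) (t : List V) : Prop where
  three : 2 ≤ t.length
  nodup : (x :: t).Nodup
  chain : (x :: t ++ [x]).IsChain G.Adj
  cover : ∀ s ∈ S, s ∈ x :: t

/-- a cycle through `S` of minimum weight -/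
structure IsMin (G : SimpleGraph V) (c : Sym2 V → ℕ) (S : Finset V) (x : V) (t : List V) :
    Prop where
  cyc : IsCyc G S x t
  min : ∀ (y : V) (t' : List V), IsCyc G S y t' → pw c (x :: t ++ [x]) ≤ pw c (y :: t' ++ [y])

/-- replacement of a part of a minimum weight cycle -/
theorem replace {G : SimpleGraph V} {c : Sym2 V → ℕ} {S : Finset V} {x : V} {t : List V}
    (h : IsMin G c S x t) (A B D M : List V) (a d : V)
    (hl : x :: t = A ++ a :: (B ++ d :: D))
    (hn : (A ++ a :: (M ++ d :: D)).Nodup)
    (hch : (a :: (M ++ [d])).IsChain G.Adj)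
    (h3 : 3 ≤ (A ++ a :: (M ++ d :: D)).length)
    (hS : ∀ s ∈ S, s ∈ B → s ∈ M) :
    pw c (a :: (B ++ [d])) ≤ pw c (a :: (M ++ [d])) := by
  obtain ⟨t', ht'⟩ : ∃ t', A ++ a :: (M ++ d :: D) = x :: t' := by
    cases A with
    | nil =>
      simp only [List.nil_append, List.cons.injEq] at hl
      exact ⟨M ++ d :: D, by rw [List.nil_append, hl.1]⟩
    | cons y A =>
      simp only [List.cons_append, List.cons.injEq] at hl
      exact ⟨A ++ a :: (M ++ d :: D), by rw [List.cons_append, hl.1]⟩
  have e1 : x :: t ++ [x] = A ++ a :: (B ++ d :: (D ++ [x])) := by rw [hl]; simp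
  have e2 : x :: t' ++ [x] = A ++ a :: (M ++ d :: (D ++ [x])) := by rw [← ht']; simp
  have c1 := h.cyc.chain
  rw [e1, List.isChain_split, chain_cons_split] at c1
  have hcyc : IsCyc G S x t' := by
    refine ⟨?_, ?_, ?_, ?_⟩
    · rw [ht', List.length_cons] at h3
      omega
    · rw [← ht']; exact hn
    · rw [e2, List.isChain_split, chain_cons_split]
      exact ⟨c1.1, hch, c1.2.2⟩
    · intro s hs
      have h1 := h.cyc.cover s hs
      rw [hl] at h1
      rw [← ht']
      simp only [List.mem_append, List.mem_cons] at h1 ⊢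
      rcases h1 with h1 | h1 | h1 | h1 | h1
      · exact Or.inl h1
      · exact Or.inr (Or.inl h1)
      · exact Or.inr (Or.inr (Or.inl (hS s hs h1)))
      · exact Or.inr (Or.inr (Or.inr (Or.inl h1)))
      · exact Or.inr (Or.inr (Or.inr (Or.inr h1)))
  have h2 := h.min x t' hcyc
  rw [e1, e2, pw_split c A (B ++ d :: (D ++ [x])), pw_split c A (M ++ d :: (D ++ [x])),
    pw_cons_split c a d B (D ++ [x]), pw_cons_split c a d M (D ++ [x])] at h2
  omega

section

variable {G : SimpleGraph V} {c : Sym2 V → ℕ} {S : Finset V} {x : V} {t : List V} {m ρ : ℕ}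

/-- a light detour through an outer vertex -/
theorem outer (h : IsMin G c S x t) (hc : ∀ e ∈ G.edgeSet, m ≤ c e) (hm : 0 < m)
    (A B D : List V) (a d z : V) (hl : x :: t = A ++ a :: (B ++ d :: D))
    (hB : ∀ s ∈ S, s ∉ B) (hz : z ∉ x :: t) (ha : G.Adj a z) (hd : G.Adj d z)
    (ca : c s(a, z) ≤ ρ * m) (cd : c s(d, z) ≤ ρ * m) : B.length + 1 ≤ 2 * ρ := by
  have hn := h.cyc.nodup
  have hch := h.cyc.chain
  rw [hl] at hn hz
  have e1 : x :: t ++ [x] = A ++ a :: (B ++ d :: (D ++ [x])) := by rw [hl]; simp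
  rw [e1, List.isChain_split, chain_cons_split] at hch
  have h1 := replace h A B D [z] a d hl ?_ ?_ ?_ ?_
  · have h2 := pw_ge G c m hc a (B ++ [d]) hch.2.1
    simp only [List.length_append, List.length_cons, List.length_nil] at h2
    simp only [List.cons_append, List.nil_append, pw] at h1
    rw [Sym2.eq_swap (a := z) (b := d)] at h1
    have h3 : m * (B.length + 1) ≤ m * (2 * ρ) := by
      calc m * (B.length + 1) = m * (B.length + (0 + 1)) := by ring
        _ ≤ c s(a, z) + (c s(d, z) + 0) := h2.trans h1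
        _ ≤ m * (2 * ρ) := by nlinarith
    exact Nat.le_of_mul_le_mul_left h3 hm
  · simp only [List.nodup_append, List.nodup_cons, List.mem_append, List.mem_cons, not_or] at hn hz ⊢
    grind
  · simp only [List.cons_append, List.nil_append, List.isChain_cons_cons]
    exact ⟨ha, hd.symm, List.isChain_singleton _⟩
  · simp only [List.length_append, List.length_cons]
    omega
  · intro s hs hsB
    exact absurd hsB (hB s hs)

/-- a light chord of a segment -/
theorem inner (h : IsMin G c S x t) (hc : ∀ e ∈ G.edgeSet, m ≤ c e) (hm : 0 < m)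
    (A B D : List V) (a d : V) (hl : x :: t = A ++ a :: (B ++ d :: D))
    (hB : ∀ s ∈ S, s ∉ B) (hAD : A ≠ [] ∨ D ≠ []) (ha : G.Adj a d)
    (ca : c s(a, d) ≤ ρ * m) : B.length + 1 ≤ ρ := by
  have hn := h.cyc.nodup
  have hch := h.cyc.chain
  rw [hl] at hn
  have e1 : x :: t ++ [x] = A ++ a :: (B ++ d :: (D ++ [x])) := by rw [hl]; simp
  rw [e1, List.isChain_split, chain_cons_split] at hch
  have h1 := replace h A B D [] a d hl ?_ ?_ ?_ ?_
  · have h2 := pw_ge G c m hc a (B ++ [d]) hch.2.1
    simp only [List.length_append, List.length_cons, List.length_nil] at h2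
    simp only [List.nil_append, pw] at h1
    have h3 : m * (B.length + 1) ≤ m * ρ := by
      calc m * (B.length + 1) = m * (B.length + (0 + 1)) := by ring
        _ ≤ c s(a, d) + 0 := h2.trans h1
        _ ≤ m * ρ := by nlinarith
    exact Nat.le_of_mul_le_mul_left h3 hm
  · simp only [List.nodup_append, List.nodup_cons, List.mem_append, List.mem_cons, not_or] at hn ⊢
    grind
  · simp only [List.nil_append, List.isChain_cons_cons]
    exact ⟨ha, List.isChain_singleton _⟩
  · simp only [List.length_append, List.length_cons, List.length_nil]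
    rcases hAD with h' | h'
    · have := List.length_pos_iff.mpr h'
      omega
    · have := List.length_pos_iff.mpr h'
      omega
  · intro s hs hsB
    exact absurd hsB (hB s hs)

/-- two light parallel chords between two segments -/
theorem cross (h : IsMin G c S x t) (hc : ∀ e ∈ G.edgeSet, m ≤ c e) (hm : 0 < m)
    (A B₁ B₂ B₃ D : List V) (a b g d : V)
    (hl : x :: t = A ++ a :: (B₁ ++ b :: (B₂ ++ g :: (B₃ ++ d :: D))))
    (hB₁ : ∀ s ∈ S, s ∉ B₁) (hB₃ : ∀ s ∈ S, s ∉ B₃) (hag : G.Adj a g) (hbd : G.Adj b d)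
    (ca : c s(a, g) ≤ ρ * m) (cb : c s(b, d) ≤ ρ * m) :
    (B₁.length + 1) + (B₃.length + 1) ≤ 2 * ρ := by
  have hn := h.cyc.nodup
  have hch := h.cyc.chain
  have e0 : x :: t = A ++ a :: ((B₁ ++ b :: (B₂ ++ g :: B₃)) ++ d :: D) := by rw [hl]; simp
  have e1 : x :: t ++ [x] = A ++ a :: (B₁ ++ b :: (B₂ ++ g :: (B₃ ++ d :: (D ++ [x])))) := by
    rw [hl]; simp
  rw [hl] at hn
  rw [e1, List.isChain_split, chain_cons_split a b, chain_cons_split b g, chain_cons_split g d]
    at hch
  obtain ⟨-, c1, c2, c3, -⟩ := hch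
  have hrev : (g :: (B₂.reverse ++ [b])) = (b :: (B₂ ++ [g])).reverse := by simp
  have h1 := replace h A (B₁ ++ b :: (B₂ ++ g :: B₃)) D (g :: (B₂.reverse ++ [b])) a d e0 ?_ ?_ ?_ ?_
  · have h2 := pw_ge G c m hc a (B₁ ++ [b]) c1
    have h4 := pw_ge G c m hc g (B₃ ++ [d]) c3
    simp only [List.length_append, List.length_cons, List.length_nil] at h2 h4
    have e3 : a :: ((B₁ ++ b :: (B₂ ++ g :: B₃)) ++ [d]) =
        a :: (B₁ ++ b :: (B₂ ++ g :: (B₃ ++ [d]))) := by simp
    have e5 : a :: ((g :: (B₂.reverse ++ [b])) ++ [d]) = a :: g :: (B₂.reverse ++ b :: [d]) := by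
      simp
    have e6 : pw c (g :: (B₂.reverse ++ b :: [d])) = pw c (b :: (B₂ ++ [g])) + c s(b, d) := by
      rw [pw_cons_split, hrev, pw_reverse]
      simp [pw]
    have e7 : pw c (a :: g :: (B₂.reverse ++ b :: [d])) =
        c s(a, g) + pw c (g :: (B₂.reverse ++ b :: [d])) := rfl
    rw [e3, pw_cons_split c a b, pw_cons_split c b g, pw_cons_split c g d, e5, e7, e6] at h1
    have h3 : m * ((B₁.length + 1) + (B₃.length + 1)) ≤ m * (2 * ρ) := by
      nlinarith
    exact Nat.le_of_mul_le_mul_left h3 hm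
  · simp only [List.nodup_append, List.nodup_cons, List.mem_append, List.mem_cons, not_or] at hn ⊢
    simp only [List.mem_reverse, List.nodup_reverse]
    grind
  · have e5 : a :: ((g :: (B₂.reverse ++ [b])) ++ [d]) = a :: g :: (B₂.reverse ++ b :: [d]) := by
      simp
    rw [e5, List.isChain_cons_cons, chain_cons_split, hrev, List.isChain_reverse]
    refine ⟨hag, ?_, ?_⟩
    · exact c2.imp fun _ _ h' => h'.symm
    · rw [List.isChain_cons_cons]
      exact ⟨hbd, List.isChain_singleton _⟩
  · simp only [List.length_append, List.length_cons]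
    omega
  · intro s hs hsB
    have := hB₁ s hs
    have := hB₃ s hs
    simp only [List.mem_append, List.mem_cons, List.mem_reverse] at hsB ⊢
    grind

end

end Pool.Agent.Lib.MP_fc2f01_lc
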