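import Pool.Agent.Lib.MP_fc2f01_lc.Count

/-! The length of a minimum weight cycle when the paths of low vertices have light chords. -/

set_option autoImplicit false

namespace Pool.Agent.Lib.MP_fc2f01_lc

open Finset

variable {V : Type*}

/-- Every path on `p` vertices all of which lie outside `S` and have fewer than `|V| / t` neighbours
along edges of weight at most `r` has two vertices at distance more than `ρ` on the path that are
joined by an edge of weight at most `r`. -/
def LowPathsChorded [Fintype V] (G : SimpleGraph V) (c : Sym2 V → ℕ) (S : Finset V)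
    (r ρ t p : ℕ) : Prop :=
  ∀ l : List V, l.length = p → l.Nodup → l.IsChain G.Adj →
    (∀ v ∈ l, v ∉ S ∧ t * lightDegree G c r v < Fintype.card V) →
      ∃ (i j : ℕ) (_ : i + ρ < j) (_ : j < l.length), Light G c r l[i] l[j]

theorem low_window [DecidableEq V] [Fintype V] {G : SimpleGraph V} {c : Sym2 V → ℕ}
    {S : Finset V} {x : V} {tl : List V} {m ρ t p : ℕ}
    (h : IsMin G c S x tl) (hc : ∀ e ∈ G.edgeSet, m ≤ c e) (hm : 0 < m)
    (hx : x ∈ S) (hQ : LowPathsChorded G c S (ρ * m) ρ t p) (a : ℕ)
    (ha : a + p ≤ (x :: tl).length) :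
    ∃ i, a ≤ i ∧ i < a + p ∧ (vt x tl i ∈ S ∨
      Fintype.card V ≤ t * lightDegree G c (ρ * m) (vt x tl i)) := by
  by_contra hcon
  push Not at hcon
  set L := x :: tl with hL
  have hlen : ((L.drop a).take p).length = p := by
    rw [List.length_take, List.length_drop]
    omega
  have hget : ∀ i (hi : i < ((L.drop a).take p).length), ((L.drop a).take p)[i] = vt x tl (a + i) := by
    intro i hi
    rw [hlen] at hi
    rw [vt_eq _ _ _ (by rw [← hL]; omega), List.getElem_take, List.getElem_drop]
  obtain ⟨i, j, hij, hj, hl⟩ := hQ ((L.drop a).take p) hlen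
    (h.cyc.nodup.sublist ((List.take_sublist _ _).trans (List.drop_sublist _ _)))
    (by
      have h1 : L.IsChain G.Adj := by
        have := h.cyc.chain
        exact (List.isChain_append.mp this).1
      exact (h1.drop a).take p)
    (fun v hv => by
      obtain ⟨i, hi, rfl⟩ := List.getElem_of_mem hv
      rw [hget i hi]
      rw [hlen] at hi
      exact hcon (a + i) (by omega) (by omega))
  rw [hget, hget] at hl
  have hj' : j < p := by omega
  have hap : p = 0 ∨ 0 < a := by
    by_contra h0
    push Not at h0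
    have := (hcon 0 (by omega) (by omega)).1
    exact this (by simpa [vt] using hx)
  have hs : seg S L (a + i) = seg S L (a + j) := by
    rw [seg_split S L (a + i) (a + j) (by omega)]
    have h0 : ((L.drop (a + i + 1)).take (a + j - (a + i))).countP (· ∈ S) = 0 := by
      rw [List.countP_eq_zero]
      intro v hv
      obtain ⟨q, hq, rfl⟩ := List.getElem_of_mem hv
      rw [List.length_take, List.length_drop] at hq
      rw [List.getElem_take, List.getElem_drop]
      have h1 := (hcon (a + i + 1 + q) (by omega) (by omega)).1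
      rw [vt_eq _ _ _ (by rw [← hL]; omega)] at h1
      simpa using h1
    omega
  have := inner_idx h hc hm (a + i) (a + j) (by omega) (by rw [← hL]; omega) hs
    (Or.inl (by omega)) hl
  omega

theorem length_le [DecidableEq V] [Fintype V] {G : SimpleGraph V} {c : Sym2 V → ℕ}
    {S : Finset V} {x : V} {tl : List V} {m ρ t p : ℕ}
    (h : IsMin G c S x tl) (hc : ∀ e ∈ G.edgeSet, m ≤ c e) (hm : 0 < m)
    (hx : x ∈ S) (hQ : LowPathsChorded G c S (ρ * m) ρ t p) :
    (x :: tl).length ≤ ((2 * ρ + 1) * t + 1) * S.card * p := by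
  classical
  set ℓ := (x :: tl).length with hℓ
  set Mk := (range ℓ).filter fun i => vt x tl i ∈ S ∨
    Fintype.card V ≤ t * lightDegree G c (ρ * m) (vt x tl i) with hMk
  have h0 : (0 : ℕ) ∈ Mk := by
    rw [hMk, mem_filter, mem_range]
    exact ⟨by rw [hℓ]; simp, Or.inl (by simpa [vt] using hx)⟩
  -- the last mark before a position
  have hlast : ∀ i ∈ range ℓ, ∃ μ ∈ Mk, μ ≤ i ∧ ∀ μ' ∈ Mk, μ' ≤ i → μ' ≤ μ := by
    intro i _
    have hne : (Mk.filter (· ≤ i)).Nonempty := ⟨0, mem_filter.mpr ⟨h0, Nat.zero_le _⟩⟩
    refine ⟨(Mk.filter (· ≤ i)).max' hne, ?_, ?_, ?_⟩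
    · exact (mem_filter.mp (max'_mem _ hne)).1
    · exact (mem_filter.mp (max'_mem _ hne)).2
    · intro μ' h1 h2
      exact le_max' _ _ (mem_filter.mpr ⟨h1, h2⟩)
  choose! g hg1 hg2 hg3 using hlast
  have hcount : ℓ ≤ p * Mk.card := by
    have h1 := card_le_mul_card_image_of_maps_to (s := range ℓ) (t := Mk) (f := g) hg1 p ?_
    · rwa [card_range] at h1
    · intro μ hμ
      have hsub : ((range ℓ).filter fun i => g i = μ) ⊆ Ico μ (μ + p) := by
        intro i hi
        rw [mem_filter, mem_range] at hi
        obtain ⟨hi, rfl⟩ := hi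
        rw [mem_Ico]
        refine ⟨hg2 i (mem_range.mpr hi), ?_⟩
        by_contra hcon
        obtain ⟨i', h2, h3, h4⟩ := low_window h hc hm hx hQ (g i + 1) (by omega)
        have h5 := hg3 i (mem_range.mpr hi) i' (by
          rw [hMk, mem_filter, mem_range]
          exact ⟨by omega, h4⟩) (by omega)
        omega
      refine (card_le_card hsub).trans ?_
      rw [Nat.card_Ico]
      omega
  -- the number of marks
  have hinj : Set.InjOn (vt x tl) (range ℓ) := by
    intro i hi j hj hij
    rw [mem_coe, mem_range] at hi hj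
    exact vt_inj x tl h.cyc.nodup i j hi hj hij
  set HC := (x :: tl).toFinset.filter
    fun v => Fintype.card V ≤ t * lightDegree G c (ρ * m) v with hHC
  have hmk : Mk.card ≤ S.card + HC.card := by
    have h1 : Mk.card ≤ (S ∪ HC).card := by
      refine card_le_card_of_injOn (vt x tl) ?_ ?_
      · intro i hi
        rw [mem_coe, hMk, mem_filter, mem_range] at hi
        rw [mem_coe, mem_union]
        rcases hi.2 with h2 | h2
        · exact Or.inl h2
        · right
          rw [hHC, mem_filter, List.mem_toFinset]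
          exact ⟨vt_mem x tl i hi.1, h2⟩
      · intro i hi j hj hij
        rw [mem_coe, hMk, mem_filter] at hi hj
        exact hinj hi.1 hj.1 hij
    exact h1.trans (card_union_le _ _)
  have hdeg := degree_sum (ρ := ρ) h hc hm hx
  have hn : 0 < Fintype.card V := Fintype.card_pos_iff.mpr ⟨x⟩
  have hHC2 : HC.card ≤ (2 * ρ + 1) * t * S.card := by
    have h1 : HC.card * Fintype.card V ≤ t * ∑ v ∈ (x :: tl).toFinset,
        lightDegree G c (ρ * m) v := by
      rw [mul_sum, ← smul_eq_mul]
      calc _ ≤ ∑ v ∈ HC, t * lightDegree G c (ρ * m) v :=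
            card_nsmul_le_sum _ _ _ fun v hv => (mem_filter.mp hv).2
        _ ≤ _ := sum_le_sum_of_subset (filter_subset _ _)
    have h2 : HC.card * Fintype.card V ≤ ((2 * ρ + 1) * t * S.card) * Fintype.card V := by
      calc _ ≤ t * ∑ v ∈ (x :: tl).toFinset, lightDegree G c (ρ * m) v := h1
        _ ≤ t * ((2 * ρ + 1) * S.card * Fintype.card V) := Nat.mul_le_mul_left t hdeg
        _ = _ := by ring
    exact Nat.le_of_mul_le_mul_right h2 hn
  calc ℓ ≤ p * Mk.card := hcount
    _ ≤ p * (S.card + (2 * ρ + 1) * t * S.card) := Nat.mul_le_mul_left p (by omega)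
    _ = _ := by ring

end Pool.Agent.Lib.MP_fc2f01_lc
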