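import Pool.Agent.Lib.MP_fc2f01_lc.Index

/-! Counting the light edges at a minimum weight cycle. -/

set_option autoImplicit false

namespace Pool.Agent.Lib.MP_fc2f01_lc

open Finset

theorem card_le_of_diam (s : Finset ℕ) (D : ℕ) (h : ∀ a ∈ s, ∀ b ∈ s, a < b → b ≤ a + D) :
    s.card ≤ D + 1 := by
  rcases s.eq_empty_or_nonempty with rfl | hs
  · simp
  · have : s ⊆ Icc (s.min' hs) (s.min' hs + D) := by
      intro b hb
      have h1 := s.min'_le b hb
      rw [mem_Icc]
      refine ⟨h1, ?_⟩
      rcases h1.eq_or_lt with h2 | h2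
      · omega
      · exact h _ (s.min'_mem hs) b hb h2
    refine (card_le_card this).trans ?_
    rw [Nat.card_Icc]
    omega

variable {V : Type*}

theorem vt_mem (x : V) (t : List V) (i : ℕ) (h : i < (x :: t).length) : vt x t i ∈ x :: t := by
  rw [vt_eq _ _ _ h]
  exact List.getElem_mem h

theorem vt_inj (x : V) (t : List V) (hn : (x :: t).Nodup) (i j : ℕ) (hi : i < (x :: t).length)
    (hj : j < (x :: t).length) (h : vt x t i = vt x t j) : i = j := by
  rw [vt_eq _ _ _ hi, vt_eq _ _ _ hj] at h
  exact (hn.getElem_inj_iff).mp h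

theorem exists_vt (x : V) (t : List V) (z : V) (h : z ∈ x :: t) :
    ∃ i, i < (x :: t).length ∧ vt x t i = z := by
  obtain ⟨i, hi, h⟩ := List.getElem_of_mem h
  exact ⟨i, hi, by rw [vt_eq _ _ _ hi, h]⟩

variable [DecidableEq V]

theorem toFinset_eq (x : V) (t : List V) :
    (x :: t).toFinset = (range (x :: t).length).image (vt x t) := by
  ext z
  rw [List.mem_toFinset, mem_image]
  constructor
  · intro h
    obtain ⟨i, hi, h⟩ := exists_vt x t z h
    exact ⟨i, mem_range.mpr hi, h⟩
  · rintro ⟨i, hi, rfl⟩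
    exact vt_mem x t i (mem_range.mp hi)

theorem seg_pos (S : Finset V) (x : V) (t : List V) (hx : x ∈ S) (a : ℕ) :
    1 ≤ seg S (x :: t) a := by
  have h1 := seg_mono S (x :: t) 0 a (Nat.zero_le a)
  have h2 : seg S (x :: t) 0 = 1 := by
    simp [seg, hx]
  omega

theorem seg_le (S : Finset V) (x : V) (t : List V) (hn : (x :: t).Nodup) (a : ℕ) :
    seg S (x :: t) a ≤ S.card := by
  rw [seg, List.countP_eq_length_filter]
  have h1 : (((x :: t).take (a + 1)).filter (· ∈ S)).Nodup :=
    (hn.sublist (List.take_sublist _ _)).filter _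
  rw [← List.toFinset_card_of_nodup h1]
  refine card_le_card fun z hz => ?_
  rw [List.mem_toFinset, List.mem_filter] at hz
  simpa using hz.2

variable {G : SimpleGraph V} {c : Sym2 V → ℕ} {S : Finset V} {x : V} {t : List V} {m ρ : ℕ}

open Classical in
theorem out_count (h : IsMin G c S x t) (hc : ∀ e ∈ G.edgeSet, m ≤ c e) (hm : 0 < m)
    (hx : x ∈ S) (z : V) (hz : z ∉ x :: t) :
    ((range (x :: t).length).filter fun i => Light G c (ρ * m) (vt x t i) z).card ≤
      (2 * ρ + 1) * S.card := by
  refine (card_le_mul_card_image (f := seg S (x :: t)) _ (2 * ρ + 1) ?_).trans ?_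
  · intro σ _
    refine card_le_of_diam _ (2 * ρ) fun a ha b hb hab => ?_
    simp only [mem_filter, mem_range] at ha hb
    exact outer_idx h hc hm a b z hab hb.1.1 (ha.2.trans hb.2.symm) hz ha.1.2 hb.1.2
  · gcongr
    have : (((range (x :: t).length).filter
        fun i => Light G c (ρ * m) (vt x t i) z).image (seg S (x :: t))) ⊆ Icc 1 S.card := by
      intro σ hσ
      obtain ⟨i, hi, rfl⟩ := mem_image.mp hσ
      rw [mem_Icc]
      exact ⟨seg_pos S x t hx i, seg_le S x t h.cyc.nodup i⟩
    refine (card_le_card this).trans ?_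
    rw [Nat.card_Icc]
    omega

open Classical in
/-- the positions of a segment which are joined to the position `j` and to a later position of the
segment of `j` by light edges -/
noncomputable def fib (G : SimpleGraph V) (c : Sym2 V → ℕ) (S : Finset V) (x : V) (t : List V)
    (r σ j : ℕ) : Finset ℕ :=
  (range (x :: t).length).filter fun i => seg S (x :: t) i = σ ∧
    Light G c r (vt x t i) (vt x t j) ∧ ∃ j', j < j' ∧ j' < (x :: t).length ∧
      seg S (x :: t) j' = seg S (x :: t) j ∧ Light G c r (vt x t i) (vt x t j')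

theorem fib_card (h : IsMin G c S x t) (hc : ∀ e ∈ G.edgeSet, m ≤ c e) (hm : 0 < m)
    (σ j : ℕ) (hj : j < (x :: t).length) : (fib G c S x t (ρ * m) σ j).card ≤ 2 * ρ := by
  classical
  rcases Nat.eq_zero_or_pos ρ with rfl | hρ
  · have : fib G c S x t (0 * m) σ j = ∅ := by
      apply eq_empty_of_forall_notMem
      intro i hi
      rw [fib, mem_filter] at hi
      have h1 := hc s(vt x t i, vt x t j) hi.2.2.1.1
      have h2 := hi.2.2.1.2
      omega
    rw [this]
    simp
  by_cases hσ : σ = seg S (x :: t) j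
  · by_cases hj0 : j = 0
    · have : fib G c S x t (ρ * m) σ j ⊆ insert ((x :: t).length - 1) (Icc 1 ρ) := by
        intro i hi
        rw [fib, mem_filter, mem_range] at hi
        obtain ⟨hi1, hi2, hi3, -⟩ := hi
        have hi0 : i ≠ 0 := by
          rintro rfl
          rw [hj0] at hi3
          exact hi3.1.ne rfl
        rw [mem_insert, mem_Icc]
        by_cases h1 : i = (x :: t).length - 1
        · exact Or.inl h1
        · right
          have := inner_idx h hc hm 0 i (by omega) hi1 (by rw [hi2, hσ, hj0]) (Or.inr (by omega))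
            (by rw [hj0] at hi3; exact hi3.symm)
          omega
      refine (card_le_card this).trans ((card_insert_le _ _).trans ?_)
      rw [Nat.card_Icc]
      omega
    · have : fib G c S x t (ρ * m) σ j ⊆ Ico (j - ρ) j ∪ Ioc j (j + ρ) := by
        intro i hi
        rw [fib, mem_filter, mem_range] at hi
        obtain ⟨hi1, hi2, hi3, j', hj1, hj2, -, -⟩ := hi
        rw [mem_union, mem_Ico, mem_Ioc]
        rcases lt_trichotomy i j with h1 | h1 | h1
        · left
          have := inner_idx h hc hm i j h1 hj (by rw [hi2, hσ]) (Or.inr (by omega)) hi3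
          omega
        · subst h1
          exact absurd rfl hi3.1.ne
        · right
          have := inner_idx h hc hm j i h1 hi1 (by rw [hi2, hσ]) (Or.inl (by omega)) hi3.symm
          omega
      refine (card_le_card this).trans ((card_union_le _ _).trans ?_)
      rw [Nat.card_Ico, Nat.card_Ioc]
      omega
  · have := card_le_of_diam (fib G c S x t (ρ * m) σ j) (2 * ρ - 1) ?_
    · omega
    · intro a ha b hb hab
      rw [fib, mem_filter, mem_range] at ha hb
      obtain ⟨hb1, hb2, hb3, j', hj1, hj2, hj3, hj4⟩ := hb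
      obtain ⟨ha1, ha2, ha3, -⟩ := ha
      have := cross_idx h hc hm a b j j' hab hj1 hb1 hj2 (by rw [ha2, hb2]) hj3.symm
        (by rw [ha2]; exact hσ) ha3 hj4
      omega

open Classical in
theorem in_count (h : IsMin G c S x t) (hc : ∀ e ∈ G.edgeSet, m ≤ c e) (hm : 0 < m)
    (hx : x ∈ S) :
    ((range (x :: t).length ×ˢ range (x :: t).length).filter
      fun p => Light G c (ρ * m) (vt x t p.1) (vt x t p.2)).card ≤
      (2 * ρ + 1) * S.card * (x :: t).length := by
  set ℓ := (x :: t).length with hℓ
  set T := (range ℓ ×ˢ range ℓ).filter fun p => Light G c (ρ * m) (vt x t p.1) (vt x t p.2)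
    with hT
  let Q : ℕ × ℕ → Prop := fun p => ∃ j', p.2 < j' ∧ j' < ℓ ∧
      seg S (x :: t) j' = seg S (x :: t) p.2 ∧ Light G c (ρ * m) (vt x t p.1) (vt x t j')
  have h0 : T.card = (T.filter Q).card + (T.filter fun p => ¬ Q p).card :=
    (card_filter_add_card_filter_not (s := T) Q).symm
  have h1 : (T.filter fun p => ¬ Q p).card ≤ (range ℓ ×ˢ Icc 1 S.card).card := by
    refine card_le_card_of_injOn (fun p => (p.1, seg S (x :: t) p.2)) ?_ ?_
    · intro p hp
      rw [mem_coe, mem_filter, hT, mem_filter, mem_product, mem_range, mem_range] at hp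
      rw [mem_coe, mem_product, mem_range, mem_Icc]
      exact ⟨hp.1.1.1, seg_pos S x t hx _, seg_le S x t h.cyc.nodup _⟩
    · intro p hp q hq hpq
      rw [mem_coe, mem_filter, hT, mem_filter, mem_product, mem_range, mem_range] at hp hq
      obtain ⟨i, j⟩ := p
      obtain ⟨i', j'⟩ := q
      simp only [Prod.mk.injEq] at hpq hp hq ⊢
      obtain ⟨rfl, h2⟩ := hpq
      refine ⟨rfl, ?_⟩
      rcases lt_trichotomy j j' with h3 | h3 | h3
      · exact absurd ⟨j', h3, hq.1.1.2, h2.symm, hq.1.2⟩ hp.2
      · exact h3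
      · exact absurd ⟨j, h3, hp.1.1.2, h2, hp.1.2⟩ hq.2
  have h2 : (T.filter Q).card ≤ 2 * ρ * (Icc 1 S.card ×ˢ range ℓ).card := by
    refine (card_le_mul_card_image (f := fun p => (seg S (x :: t) p.1, p.2)) _ (2 * ρ) ?_).trans ?_
    · rintro ⟨σ, j⟩ hσ
      obtain ⟨p, hp, hpe⟩ := mem_image.mp hσ
      have hj : j < ℓ := by
        rw [mem_filter, hT, mem_filter, mem_product, mem_range, mem_range] at hp
        simp only [Prod.mk.injEq] at hpe
        rw [← hpe.2]
        exact hp.1.1.2
      refine le_trans ?_ (fib_card (ρ := ρ) h hc hm σ j hj)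
      refine card_le_card_of_injOn Prod.fst ?_ ?_
      · intro p hp
        rw [mem_coe, mem_filter, mem_filter, hT, mem_filter, mem_product, mem_range, mem_range] at hp
        simp only [Prod.mk.injEq] at hp
        obtain ⟨⟨⟨h1, h2⟩, h3⟩, h4, h5⟩ := hp
        rw [mem_coe, fib, mem_filter, mem_range]
        rw [← h5]
        exact ⟨h1.1, h4, h2, h3⟩
      · intro p hp q hq hpq
        rw [mem_coe, mem_filter] at hp hq
        have h1 := hp.2
        have h2 := hq.2
        simp only [Prod.mk.injEq] at h1 h2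
        exact Prod.ext hpq (h1.2.trans h2.2.symm)
    · gcongr
      intro q hq
      obtain ⟨p, hp, rfl⟩ := mem_image.mp hq
      rw [mem_filter, hT, mem_filter, mem_product, mem_range, mem_range] at hp
      rw [mem_product, mem_range, mem_Icc]
      exact ⟨⟨seg_pos S x t hx _, seg_le S x t h.cyc.nodup _⟩, hp.1.1.2⟩
  rw [card_product, card_range, Nat.card_Icc] at h1 h2
  rw [h0]
  calc _ ≤ 2 * ρ * ((S.card + 1 - 1) * ℓ) + ℓ * (S.card + 1 - 1) := Nat.add_le_add h2 h1
    _ = (2 * ρ + 1) * S.card * ℓ := by
      rw [Nat.add_sub_cancel]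
      ring

open Classical in
/-- the number of neighbours of `v` along edges of weight at most `r` -/
noncomputable def lightDegree [Fintype V] (G : SimpleGraph V) (c : Sym2 V → ℕ) (r : ℕ) (v : V) :
    ℕ :=
  (univ.filter fun z => Light G c r v z).card

theorem degree_sum [Fintype V] (h : IsMin G c S x t) (hc : ∀ e ∈ G.edgeSet, m ≤ c e) (hm : 0 < m)
    (hx : x ∈ S) : ∑ v ∈ (x :: t).toFinset, lightDegree G c (ρ * m) v ≤
      (2 * ρ + 1) * S.card * Fintype.card V := by
  classical
  set ℓ := (x :: t).length with hℓ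
  have hinj : Set.InjOn (vt x t) (range ℓ) := by
    intro i hi j hj hij
    rw [mem_coe, mem_range] at hi hj
    exact vt_inj x t h.cyc.nodup i j hi hj hij
  have hcard : (x :: t).toFinset.card = ℓ := List.toFinset_card_of_nodup h.cyc.nodup
  have e1 : ∑ v ∈ (x :: t).toFinset, lightDegree G c (ρ * m) v =
      ∑ z : V, ((range ℓ).filter fun i => Light G c (ρ * m) (vt x t i) z).card := by
    rw [toFinset_eq, sum_image hinj]
    simp only [lightDegree, card_filter]
    exact sum_comm
  rw [e1, ← sum_add_sum_compl (x :: t).toFinset]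
  have e2 : ∑ z ∈ (x :: t).toFinset,
      ((range ℓ).filter fun i => Light G c (ρ * m) (vt x t i) z).card ≤
        (2 * ρ + 1) * S.card * ℓ := by
    refine le_trans (le_of_eq ?_) (in_count (ρ := ρ) h hc hm hx)
    rw [toFinset_eq, sum_image hinj]
    simp only [card_filter]
    rw [sum_product, sum_comm]
  have e3 : ∑ z ∈ (x :: t).toFinsetᶜ,
      ((range ℓ).filter fun i => Light G c (ρ * m) (vt x t i) z).card ≤
        (Fintype.card V - ℓ) * ((2 * ρ + 1) * S.card) := by
    have e5 := sum_le_card_nsmul ((x :: t).toFinsetᶜ)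
      (fun z => ((range ℓ).filter fun i => Light G c (ρ * m) (vt x t i) z).card)
      ((2 * ρ + 1) * S.card) fun z hz => by
        rw [mem_compl, List.mem_toFinset] at hz
        exact out_count h hc hm hx z hz
    rw [card_compl, hcard, smul_eq_mul] at e5
    exact e5
  have e4 : ℓ ≤ Fintype.card V := by
    rw [← hcard]
    exact card_le_univ _
  obtain ⟨q, hq⟩ := Nat.exists_eq_add_of_le e4
  rw [hq, Nat.add_sub_cancel_left] at e3
  rw [hq]
  nlinarith

end Pool.Agent.Lib.MP_fc2f01_lc
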