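import Pool.Agent.Lib.MP_fc2f01_lc.Basic

/-! The surgery lemmas in terms of the positions on the cycle. -/

set_option autoImplicit false

namespace Pool.Agent.Lib.MP_fc2f01_lc

variable {V : Type*}

/-- the entries at the positions strictly between `i` and `j` -/
def mid (L : List V) (i j : ℕ) : List V := (L.drop (i + 1)).take (j - (i + 1))

theorem mid_length (L : List V) (i j : ℕ) (hj : j < L.length) :
    (mid L i j).length = j - (i + 1) := by
  rw [mid, List.length_take, List.length_drop]
  omega

theorem drop_split (L : List V) (i j : ℕ) (hij : i < j) (hj : j < L.length) :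
    L.drop (i + 1) = mid L i j ++ L[j] :: L.drop (j + 1) := by
  rw [mid, ← List.drop_eq_getElem_cons hj]
  conv_lhs => rw [← List.take_append_drop (j - (i + 1)) (L.drop (i + 1))]
  rw [List.drop_drop]
  congr 2
  omega

theorem split2 (L : List V) (a b : ℕ) (hab : a < b) (hb : b < L.length) :
    L = L.take a ++ L[a] :: (mid L a b ++ L[b] :: L.drop (b + 1)) := by
  rw [← drop_split L a b hab hb, ← List.drop_eq_getElem_cons (by omega), List.take_append_drop]

theorem split4 (L : List V) (a b g d : ℕ) (hab : a < b) (hbg : b < g) (hgd : g < d)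
    (hd : d < L.length) :
    L = L.take a ++ L[a] :: (mid L a b ++ L[b] :: (mid L b g ++ L[g] :: (mid L g d ++
      L[d] :: L.drop (d + 1)))) := by
  rw [← drop_split L g d hgd hd, ← drop_split L b g hbg (by omega)]
  exact split2 L a b hab (by omega)

/-- the vertex at the position `i` -/
def vt (x : V) (t : List V) (i : ℕ) : V := (x :: t).getD i x

theorem vt_eq (x : V) (t : List V) (i : ℕ) (h : i < (x :: t).length) :
    vt x t i = (x :: t)[i] := by
  rw [vt, List.getD_eq_getElem _ _ h]

/-- joined by an edge of weight at most `r` -/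
def Light (G : SimpleGraph V) (c : Sym2 V → ℕ) (r : ℕ) (u z : V) : Prop :=
  G.Adj u z ∧ c s(u, z) ≤ r

theorem Light.symm {G : SimpleGraph V} {c : Sym2 V → ℕ} {r : ℕ} {u z : V}
    (h : Light G c r u z) : Light G c r z u :=
  ⟨h.1.symm, by rw [Sym2.eq_swap]; exact h.2⟩

variable [DecidableEq V]

/-- the number of the segment of the position `a` -/
def seg (S : Finset V) (L : List V) (a : ℕ) : ℕ := (L.take (a + 1)).countP (· ∈ S)

theorem seg_split (S : Finset V) (L : List V) (a b : ℕ) (hab : a < b) :
    seg S L b = seg S L a + ((L.drop (a + 1)).take (b - a)).countP (· ∈ S) := by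
  rw [seg, seg, ← List.countP_append, ← List.take_add]
  congr 2
  omega

theorem seg_mono (S : Finset V) (L : List V) (a b : ℕ) (hab : a ≤ b) : seg S L a ≤ seg S L b := by
  rcases hab.eq_or_lt with rfl | h
  · rfl
  · rw [seg_split S L a b h]
    omega

theorem lt_of_seg_lt (S : Finset V) (L : List V) (a b : ℕ) (h : seg S L a < seg S L b) : a < b := by
  by_contra h'
  have := seg_mono S L b a (by omega)
  omega

theorem mid_free (S : Finset V) (L : List V) (a b : ℕ) (hab : a < b)
    (h : seg S L a = seg S L b) : ∀ s ∈ S, s ∉ mid L a b := by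
  intro s hs hm
  rw [seg_split S L a b hab] at h
  have h0 : ((L.drop (a + 1)).take (b - a)).countP (· ∈ S) = 0 := by omega
  rw [List.countP_eq_zero] at h0
  have h1 : b - a = (b - (a + 1)) + 1 := by omega
  refine h0 s ?_ (by simpa using hs)
  rw [h1, List.take_add]
  exact List.mem_append_left _ hm

variable {G : SimpleGraph V} {c : Sym2 V → ℕ} {S : Finset V} {x : V} {t : List V} {m ρ : ℕ}

theorem outer_idx (h : IsMin G c S x t) (hc : ∀ e ∈ G.edgeSet, m ≤ c e) (hm : 0 < m)
    (a b : ℕ) (z : V) (hab : a < b) (hb : b < (x :: t).length)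
    (hs : seg S (x :: t) a = seg S (x :: t) b) (hz : z ∉ x :: t)
    (ha : Light G c (ρ * m) (vt x t a) z) (hd : Light G c (ρ * m) (vt x t b) z) :
    b ≤ a + 2 * ρ := by
  rw [vt_eq _ _ _ (hab.trans hb)] at ha
  rw [vt_eq _ _ _ hb] at hd
  have := outer h hc hm _ _ _ _ _ z (split2 (x :: t) a b hab hb)
    (mid_free S (x :: t) a b hab hs) hz ha.1 hd.1 ha.2 hd.2
  rw [mid_length _ _ _ hb] at this
  omega

theorem inner_idx (h : IsMin G c S x t) (hc : ∀ e ∈ G.edgeSet, m ≤ c e) (hm : 0 < m)
    (a b : ℕ) (hab : a < b) (hb : b < (x :: t).length)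
    (hs : seg S (x :: t) a = seg S (x :: t) b) (hne : 0 < a ∨ b + 1 < (x :: t).length)
    (ha : Light G c (ρ * m) (vt x t a) (vt x t b)) : b ≤ a + ρ := by
  rw [vt_eq _ _ _ (hab.trans hb), vt_eq _ _ _ hb] at ha
  have := inner h hc hm _ _ _ _ _ (split2 (x :: t) a b hab hb)
    (mid_free S (x :: t) a b hab hs) ?_ ha.1 ha.2
  · rw [mid_length _ _ _ hb] at this
    omega
  · rcases hne with h' | h'
    · left
      intro h0
      have := congrArg List.length h0
      rw [List.length_take, List.length_nil] at this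
      omega
    · right
      intro h0
      have := congrArg List.length h0
      rw [List.length_drop, List.length_nil] at this
      omega

theorem cross_aux (h : IsMin G c S x t) (hc : ∀ e ∈ G.edgeSet, m ≤ c e) (hm : 0 < m)
    (a b g d : ℕ) (hab : a < b) (hgd : g < d) (hd : d < (x :: t).length)
    (hs : seg S (x :: t) a = seg S (x :: t) b) (hs' : seg S (x :: t) g = seg S (x :: t) d)
    (hne : seg S (x :: t) a < seg S (x :: t) g)
    (ha : Light G c (ρ * m) (vt x t a) (vt x t g))
    (hb : Light G c (ρ * m) (vt x t b) (vt x t d)) : (b - a) + (d - g) ≤ 2 * ρ := by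
  have hbg : b < g := lt_of_seg_lt S (x :: t) b g (by omega)
  rw [vt_eq _ _ _ (by omega), vt_eq _ _ _ (by omega)] at ha hb
  have := cross h hc hm _ _ _ _ _ _ _ _ _ (split4 (x :: t) a b g d hab hbg hgd hd)
    (mid_free S (x :: t) a b hab hs) (mid_free S (x :: t) g d hgd hs') ha.1 hb.1 ha.2 hb.2
  rw [mid_length _ _ _ (by omega), mid_length _ _ _ hd] at this
  omega

theorem cross_idx (h : IsMin G c S x t) (hc : ∀ e ∈ G.edgeSet, m ≤ c e) (hm : 0 < m)
    (a b g d : ℕ) (hab : a < b) (hgd : g < d) (hb : b < (x :: t).length)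
    (hd : d < (x :: t).length)
    (hs : seg S (x :: t) a = seg S (x :: t) b) (hs' : seg S (x :: t) g = seg S (x :: t) d)
    (hne : seg S (x :: t) a ≠ seg S (x :: t) g)
    (hag : Light G c (ρ * m) (vt x t a) (vt x t g))
    (hbd : Light G c (ρ * m) (vt x t b) (vt x t d)) : (b - a) + (d - g) ≤ 2 * ρ := by
  rcases Nat.lt_or_gt_of_ne hne with h' | h'
  · exact cross_aux h hc hm a b g d hab hgd hd hs hs' h' hag hbd
  · have := cross_aux h hc hm g d a b hgd hab hb hs' hs h' hag.symm hbd.symm
    omega

end Pool.Agent.Lib.MP_fc2f01_lc
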