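import Pool.Agent.Lib.MP_fc2f01_lc.Bound

/-! Closed walks of Mathlib and vertex sequences. -/

set_option autoImplicit false

namespace Pool.Agent.Lib.MP_fc2f01_lc

open Finset

variable {V : Type*} {G : SimpleGraph V}

/-- the weight of a closed walk -/
def weight (c : Sym2 V → ℕ) {u : V} (C : G.Walk u u) : ℕ := (C.edges.map c).sum

/-- `C` is a cycle through all vertices of `S` -/
def IsSCycle (S : Finset V) {u : V} (C : G.Walk u u) : Prop := C.IsCycle ∧ ∀ s ∈ S, s ∈ C.support

/-- `C` is a cycle of minimum weight through all vertices of `S` -/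
def IsShortest (c : Sym2 V → ℕ) (S : Finset V) {u : V} (C : G.Walk u u) : Prop :=
  IsSCycle S C ∧ ∀ (u' : V) (C' : G.Walk u' u'), IsSCycle S C' → weight c C ≤ weight c C'

theorem pw_support (c : Sym2 V → ℕ) {u v : V} (p : G.Walk u v) :
    pw c p.support = (p.edges.map c).sum := by
  induction p with
  | nil => rfl
  | cons h p ih =>
    rw [SimpleGraph.Walk.support_cons, SimpleGraph.Walk.edges_cons, List.map_cons, List.sum_cons,
      ← ih, ← SimpleGraph.Walk.cons_tail_support p]
    rfl

/-- a closed walk which is a cycle gives a vertex sequence -/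
theorem exists_cyc (c : Sym2 V → ℕ) (S : Finset V) {u : V} (C : G.Walk u u)
    (hC : IsSCycle S C) : ∃ t : List V, IsCyc G S u t ∧ C.support = u :: t ++ [u] ∧
      pw c (u :: t ++ [u]) = weight c C := by
  have h3 := hC.1.three_le_length
  have e1 : C.support.dropLast ++ [u] = C.support := by
    have := List.dropLast_append_getLast C.support_ne_nil
    rwa [SimpleGraph.Walk.getLast_support] at this
  obtain ⟨t, ht⟩ : ∃ t, C.support.dropLast = u :: t := by
    have hl : C.support.dropLast.length = C.length := by
      rw [List.length_dropLast, SimpleGraph.Walk.length_support]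
      omega
    cases hd : C.support.dropLast with
    | nil => rw [hd] at hl; simp at hl; omega
    | cons y t =>
      refine ⟨t, ?_⟩
      rw [hd, ← SimpleGraph.Walk.cons_tail_support C, List.cons_append] at e1
      rw [(List.cons.inj e1).1]
  rw [ht] at e1
  refine ⟨t, ⟨?_, ?_, ?_, ?_⟩, e1.symm, ?_⟩
  · have := congrArg List.length e1
    rw [SimpleGraph.Walk.length_support] at this
    simp at this
    omega
  · rw [← ht]
    exact hC.1.nodup_dropLast_support
  · rw [e1]
    exact C.isChain_adj_support
  · intro s hs
    have := hC.2 s hs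
    rw [← e1] at this
    simp only [List.mem_append, List.mem_cons, List.not_mem_nil, or_false] at this ⊢
    tauto
  · rw [e1, pw_support]
    rfl

/-- a vertex sequence which is a cycle gives a closed walk -/
theorem exists_walk (c : Sym2 V → ℕ) (S : Finset V) {x : V} {t : List V} (h : IsCyc G S x t) :
    ∃ C : G.Walk x x, IsSCycle S C ∧ weight c C = pw c (x :: t ++ [x]) := by
  obtain ⟨h3, hn, hch, hS⟩ := h
  match t, h3, hn, hch, hS with
  | y :: z :: t, _, hn, hch, hS =>
    simp only [List.cons_append, List.isChain_cons_cons] at hch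
    obtain ⟨h1, h2, h4⟩ := hch
    have hne : z :: (t ++ [x]) ≠ [] := List.cons_ne_nil _ _
    have hlast : (z :: (t ++ [x])).getLast hne = x := by simp
    let P : G.Walk z x := (SimpleGraph.Walk.ofSupport (z :: (t ++ [x])) hne h4).copy rfl hlast
    have hP : P.support = z :: (t ++ [x]) := by
      rw [SimpleGraph.Walk.support_copy, SimpleGraph.Walk.support_ofSupport]
    have hC : (SimpleGraph.Walk.cons h1 (SimpleGraph.Walk.cons h2 P)).support =
        x :: (y :: z :: t) ++ [x] := by
      rw [SimpleGraph.Walk.support_cons, SimpleGraph.Walk.support_cons, hP]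
      rfl
    refine ⟨SimpleGraph.Walk.cons h1 (SimpleGraph.Walk.cons h2 P), ⟨?_, ?_⟩, ?_⟩
    · rw [SimpleGraph.Walk.cons_isCycle_iff, SimpleGraph.Walk.isPath_def,
        SimpleGraph.Walk.support_cons, hP, SimpleGraph.Walk.edges_cons]
      refine ⟨?_, ?_⟩
      · have : (x :: y :: z :: t).Perm (y :: z :: (t ++ [x])) := by
          have := (List.perm_append_singleton x (y :: z :: t)).symm
          simpa using this
        exact this.nodup_iff.mp hn
      · rw [List.mem_cons, not_or]
        refine ⟨?_, ?_⟩
        · intro h5
          rw [Sym2.eq_iff] at h5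
          simp only [List.nodup_cons, List.mem_cons, not_or] at hn
          rcases h5 with h5 | h5
          · exact hn.1.1 h5.1
          · exact hn.1.2.1 h5.1
        · intro h5
          have h6 := P.snd_mem_support_of_mem_edges h5
          rw [hP] at h6
          simp only [List.nodup_cons, List.mem_cons, not_or, List.mem_append, List.not_mem_nil,
            or_false] at hn h6
          rcases h6 with h6 | h6 | h6
          · exact hn.2.1.1 h6
          · exact hn.2.1.2 h6
          · exact hn.1.1 h6.symm
    · intro s hs
      rw [hC]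
      have := hS s hs
      exact List.mem_append_left _ this
    · rw [weight, ← pw_support, hC]

/-- rotation of a shortest cycle -/
theorem exists_min [DecidableEq V] (c : Sym2 V → ℕ) (S : Finset V) {u : V} (C : G.Walk u u)
    (hC : IsShortest c S C) {s : V} (hs : s ∈ S) : ∃ t : List V, IsMin G c S s t ∧
      (s :: t).toFinset = C.support.toFinset ∧ (s :: t).length = C.length := by
  have hs' := hC.1.2 s hs
  have hrot : IsSCycle S (C.rotate s hs') :=
    ⟨hC.1.1.rotate hs', fun s' h' => (SimpleGraph.Walk.mem_support_rotate_iff C s hs').mpr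
      (hC.1.2 s' h')⟩
  obtain ⟨t, ht, hsup, hw⟩ := exists_cyc c S (C.rotate s hs') hrot
  have hwr : weight c (C.rotate s hs') = weight c C := by
    unfold weight
    exact ((C.rotate_edges s hs').perm.map c).sum_eq
  refine ⟨t, ⟨ht, fun y t' h' => ?_⟩, ?_, ?_⟩
  · obtain ⟨C', hC', hw'⟩ := exists_walk c S h'
    rw [hw, hwr, ← hw']
    exact hC.2 y C' hC'
  · ext v
    rw [List.mem_toFinset, List.mem_toFinset, ← SimpleGraph.Walk.mem_support_rotate_iff C s hs',
      hsup]
    simp only [List.mem_append, List.mem_cons, List.not_mem_nil, or_false]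
    tauto
  · have h1 : (C.rotate s hs').length = C.length := by
      rw [← SimpleGraph.Walk.length_edges, ← SimpleGraph.Walk.length_edges]
      exact (C.rotate_edges s hs').perm.length_eq
    have h2 := congrArg List.length hsup
    rw [SimpleGraph.Walk.length_support, h1] at h2
    simp at h2
    simp
    omega

end Pool.Agent.Lib.MP_fc2f01_lc
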